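import Pool.Agent.SYS.SW.Hol
import Pool.Agent.SYS.CO.Oth
import Pool.Agent.SYS.LT.FillG

/-!
# SYS-SW-Dsc: if one side of a simple closed walk is a disc, the walk is null-homotopic

`X = cut T Y`, `X' = cut T Yᶜ`.

PROOF. `smp_vtx`: `inn_vtx` for `X` and for `X'` (`cut_le`). `X.X` = the darts `d` with `X.a d = d` = `Yᶜ ∪ W` (`mem_X_iff`, `cut_B`, `cut_R`), `X'.X = Y ∪ {d | T.a d ∈ W}`. Every vertex has a dart in `Y` or in `Yᶜ`; so the union of the two sets of vertices is everything; a vertex in both is the tail of a dart of `W`: if it has a dart in `Y ∪ T.a W` and a dart in `Yᶜ ∪ W`: either one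
of them gives it directly (a dart `d` with `T.a d ∈ W`: `T.tl d = T.hd (T.a d)` is the tail of the next dart, `smp_next`), or it has a dart in `Y` and a dart in `Yᶜ`; going around it (`T.s e = T.f (T.a e)`, in the same face as `T.a e`) there is `e ∈ Y` with `T.a e ∉ Y`, so `e ∈ W`. Conversely `T.tl d`, `d ∈ W`, has `d ∈ Y` and `d ∈ W`. `Set.ncard_union_add_ncard_inter`;
`(T.tl '' {d | d ∈ W}).ncard = W.length` (`Simple`).
* `smp_disc`: `S = X'`, `S' = ofTri T`, `z ∈ S.B`; `S.FillBy S' {d | d ∈ S.hw z} F V` with `3 F = Y.ncard` (`fs_three`), `V = X.inn + W.length`: `sub`: `le_iff_sub`; `B`: both empty (`smp_hl` for `rvw T W` and `Yᶜ`: one hole; `mem_hw`); `R`: `cut_R`, `ncard_add_ncard_compl`; `inn`: `inn_tri`, `smp_vtx`; `conn`: `S'.R \ S.R ∪ H = S.X`, `cut_hconn` (as in the proof of `fil_of_hc`: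
`S.fill T h z = ofTri T`, or directly from the definition of `HConn`). `he` is `2 V = 2 + F + (S.hw z).length` (`hw_length`, `per`). Then `fill_hol`; `S.hw z` is `rvw T W` for `z` = its head (`smp_hw`), so `hol l W = 1` (`rvw_hol`).
-/

namespace SYS

open Classical SST XP Part

variable {D : Type} [Finite D] {T : Tri D} {W : List D}

theorem smp_vtx (hc : T.Closed W) (hs : T.Simple W) (ha : ∀ d ∈ W, T.a d ∉ W) {Y : Set D} (h : Cut2 T Y)
    (hb : ∀ d, d ∈ bdy T Y ↔ d ∈ W) :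
    (cut T Y h.fs).inn + (cut T Yᶜ (cut2_compl h).fs).inn + W.length = Nat.card T.V := by
  have _ := ha
  have hfin : Finite T.V := Quotient.finite _
  have h1 := CO.inn_vtx (cut_le T Y h.fs)
  have h2 := CO.inn_vtx (cut_le T Yᶜ (cut2_compl h).fs)
  have hX : ∀ d, d ∈ (cut T Y h.fs).X ↔ d ∉ Y ∨ d ∈ W := by
    intro d
    show (d ∉ (cut T Y h.fs).R ∨ d ∈ (cut T Y h.fs).B) ↔ _
    rw [cut_R, cut_B, hb]
  have hX' : ∀ d, d ∈ (cut T Yᶜ (cut2_compl h).fs).X ↔ d ∈ Y ∨ T.a d ∈ W := by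
    intro d
    show (d ∉ (cut T Yᶜ (cut2_compl h).fs).R ∨ d ∈ (cut T Yᶜ (cut2_compl h).fs).B) ↔ _
    rw [cut_R, cut_B, ← hb]
    constructor
    · rintro (h3 | h3)
      · exact Or.inl (not_not.1 h3)
      · right
        refine ⟨not_not.1 h3.2, ?_⟩
        rw [T.aa]
        exact h3.1
    · rintro (h3 | h3)
      · exact Or.inl fun h4 => h4 h3
      · by_cases h4 : d ∈ Y
        · exact Or.inl fun h5 => h5 h4
        · exact Or.inr ⟨h4, fun h5 => h5 h3.1⟩
  have h3 := Set.ncard_union_add_ncard_inter {v : T.V | ∃ d ∈ (cut T Y h.fs).X, T.tl d = v}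
    {v : T.V | ∃ d ∈ (cut T Yᶜ (cut2_compl h).fs).X, T.tl d = v}
  have hU : {v : T.V | ∃ d ∈ (cut T Y h.fs).X, T.tl d = v} ∪
      {v : T.V | ∃ d ∈ (cut T Yᶜ (cut2_compl h).fs).X, T.tl d = v} = Set.univ := by
    rw [Set.eq_univ_iff_forall]
    intro v
    obtain ⟨d, rfl⟩ : ∃ d, T.tl d = v := Quotient.exists_rep v
    by_cases hd : d ∈ Y
    · exact Or.inr ⟨d, (hX' d).2 (Or.inl hd), rfl⟩
    · exact Or.inl ⟨d, (hX d).2 (Or.inl hd), rfl⟩
  have hI : {v : T.V | ∃ d ∈ (cut T Y h.fs).X, T.tl d = v} ∩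
      {v : T.V | ∃ d ∈ (cut T Yᶜ (cut2_compl h).fs).X, T.tl d = v} =
      ((W.map T.tl).toFinset : Set T.V) := by
    ext v
    rw [Finset.mem_coe, List.mem_toFinset, List.mem_map]
    constructor
    · rintro ⟨⟨d1, h4, h5⟩, ⟨d2, h6, h7⟩⟩
      rcases (hX d1).1 h4 with h8 | h8
      · rcases (hX' d2).1 h6 with h9 | h9
        · have h10 : T.s.SameCycle d2 d1 := Quotient.exact (h7.trans h5.symm)
          obtain ⟨n, hn⟩ := h10.exists_nat_pow_eq
          have key : ∀ n : ℕ, (T.s ^ n) d2 ∉ Y → ∃ i : ℕ, (T.s ^ i) d2 ∈ Y ∧ (T.s ^ (i + 1)) d2 ∉ Y := by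
            intro n
            induction n with
            | zero => exact fun h11 => absurd h9 h11
            | succ n ih =>
              intro h11
              by_cases h12 : (T.s ^ n) d2 ∈ Y
              · exact ⟨n, h12, h11⟩
              · exact ih h12
          obtain ⟨i, h11, h12⟩ := key n (by rw [hn]; exact h8)
          refine ⟨(T.s ^ i) d2, (hb _).1 ⟨h11, fun h13 => h12 ?_⟩, ?_⟩
          · rw [pow_succ', Equiv.Perm.mul_apply]
            show T.f (T.a ((T.s ^ i) d2)) ∈ Y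
            exact (h.fs _).2 h13
          · rw [← h7]
            refine Quotient.sound ?_
            exact Equiv.Perm.SameCycle.symm ⟨i, by rw [zpow_natCast]⟩
        · obtain ⟨i, hi, h10⟩ := List.getElem_of_mem h9
          have h11 := smp_next hc hi
          refine ⟨_, List.getElem_mem _, h11.symm.trans ?_⟩
          rw [h10]
          show T.tl (T.a (T.a d2)) = v
          rw [T.aa]
          exact h7
      · exact ⟨d1, h8, h5⟩
    · rintro ⟨d, hd, rfl⟩
      exact ⟨⟨d, (hX d).2 (Or.inr hd), rfl⟩, ⟨d, (hX' d).2 (Or.inl ((hb d).2 hd).1), rfl⟩⟩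
  rw [hU, hI, Set.ncard_coe_finset, List.toFinset_card_of_nodup hs, List.length_map, Set.ncard_univ] at h3
  omega

private theorem dsc_conn {S : Part D} (hc : S.HConn T) (hL : S.Le T) {Z : Set D} (hZ : Z ⊆ S.X)
    (hne : Z.Nonempty) (hcl : ∀ d ∈ Z, T.a d ∈ Z ∧ (d ∉ S.R → T.f d ∈ Z) ∧ (d ∈ S.B → S.nx d ∈ Z)) :
    Z = S.X := by
  refine Set.Subset.antisymm hZ fun e he => ?_
  obtain ⟨d, hd⟩ := hne
  have key : ∀ d e, S.Hc T d e → (d ∈ Z ↔ e ∈ Z) := by
    intro d e hde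
    refine hc_ind (S := S) (T := T) (fun d e => d ∈ Z ↔ e ∈ Z) (fun _ => Iff.rfl) (fun _ _ h => h.symm)
      (fun _ _ _ h h' => h.trans h') ?_ ?_ ?_ hde
    · intro d _
      refine ⟨fun h => (hcl d h).1, fun h => ?_⟩
      have h1 := (hcl _ h).1
      rwa [T.aa] at h1
    · intro d hd
      refine ⟨fun h => (hcl d h).2.1 hd, fun h => ?_⟩
      have h1 : T.f d ∉ S.R := fun h2 => hd ((le_f_mem hL d).1 h2)
      have h2 := (hcl _ h).2.1 h1
      have h3 : T.f (T.f d) ∉ S.R := fun h4 => h1 ((le_f_mem hL _).1 h4)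
      have h4 := (hcl _ h2).2.1 h3
      rwa [T.fff] at h4
    · intro d hd
      refine ⟨fun h => (hcl d h).2.2 hd, fun h => ?_⟩
      have h1 : ∀ n : ℕ, (S.nx ^ n) (S.nx d) ∈ Z ∧ (S.nx ^ n) (S.nx d) ∈ S.B := by
        intro n
        induction n with
        | zero => exact ⟨h, (nx_mem S).2 hd⟩
        | succ n ih =>
          rw [pow_succ', Equiv.Perm.mul_apply]
          exact ⟨(hcl _ ih.1).2.2 ih.2, (nx_mem S).2 ih.2⟩
      have h2 : S.nx.SameCycle (S.nx d) d := Equiv.Perm.SameCycle.symm ⟨1, by rw [zpow_one]⟩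
      obtain ⟨n, hn⟩ := h2.exists_nat_pow_eq
      have h3 := (h1 n).1
      rwa [hn] at h3
  exact (key d e (hc d (hZ hd) e he)).1 hd

theorem smp_disc {G : Type} [Group G] {l : D → G} (hl : Flat T l) (hc : T.Closed W) (hs : T.Simple W) (hne : W ≠ [])
    (ha : ∀ d ∈ W, T.a d ∉ W) {Y : Set D} (h : Cut2 T Y) (hb : ∀ d, d ∈ bdy T Y ↔ d ∈ W)
    (he : 6 * (cut T Y h.fs).inn + 3 * W.length = Y.ncard + 6) : hol l W = 1 := by
  have hv := smp_vtx hc hs ha h hb
  have hne' : rvw T W ≠ [] := by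
    unfold rvw
    rw [ne_eq, List.reverse_eq_nil_iff, List.map_eq_nil_iff]
    exact hne
  have hb' : ∀ d, d ∈ bdy T Yᶜ ↔ d ∈ rvw T W := by
    intro d
    rw [mem_rvw, ← hb]
    constructor
    · rintro ⟨h1, h2⟩
      refine ⟨not_not.1 h2, ?_⟩
      rw [T.aa]
      exact h1
    · rintro ⟨h1, h2⟩
      rw [T.aa] at h2
      exact ⟨h2, fun h3 => h3 h1⟩
  have hw := smp_hw (rvw_closed hc) (rvw_simple hc hs) (cut2_compl h).fs hb' hne'
  obtain ⟨F, hF⟩ := fs_three h.fs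
  obtain ⟨z, hzd⟩ : ∃ z, z = (rvw T W).head hne' := ⟨_, rfl⟩
  rw [← hzd] at hw
  have hB : ∀ d, d ∈ (cut T Yᶜ (cut2_compl h).fs).B ↔ d ∈ rvw T W := by
    intro d
    rw [cut_B]
    exact hb' d
  have hz : z ∈ (cut T Yᶜ (cut2_compl h).fs).B := by
    rw [hB, hzd]
    exact List.head_mem hne'
  have hlen : (rvw T W).length = W.length := by
    unfold rvw
    rw [List.length_reverse, List.length_map]
  have hHX : ((ofTri T).R \ (cut T Yᶜ (cut2_compl h).fs).R) ∪ {d | d ∈ (cut T Yᶜ (cut2_compl h).fs).hw z} =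
      (cut T Yᶜ (cut2_compl h).fs).X := by
    rw [hw]
    ext d
    constructor
    · rintro (h1 | h1)
      · exact Or.inl h1.2
      · exact Or.inr ((hB d).2 h1)
    · rintro (h1 | h1)
      · exact Or.inl ⟨T.fne d, h1⟩
      · exact Or.inr ((hB d).1 h1)
  have hfill : (cut T Yᶜ (cut2_compl h).fs).FillBy (ofTri T)
      {d | d ∈ (cut T Yᶜ (cut2_compl h).fs).hw z} F ((cut T Y h.fs).inn + W.length) := by
    refine ⟨(le_iff_sub _ T).1 (cut_le T Yᶜ _), ?_, ?_, ?_, ?_⟩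
    · rw [hw]
      ext d
      constructor
      · intro h1
        exact absurd h1.2 (T.ane d)
      · rintro ⟨h1, h2⟩
        exact absurd ((hB d).1 h1) h2
    · have h1 : (ofTri T).R = Set.univ := Set.eq_univ_iff_forall.2 fun d => T.fne d
      rw [h1, cut_R, ← hF, Set.ncard_univ, add_comm]
      exact (Set.ncard_add_ncard_compl Y).symm
    · rw [inn_tri]
      omega
    · rw [hHX]
      intro Z hZ hne2 hcl
      exact dsc_conn (cut_hconn (cut2_compl h)) (cut_le T Yᶜ _) hZ hne2 hcl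
  have hE : 2 * ((cut T Y h.fs).inn + W.length) = 2 + F + ((cut T Yᶜ (cut2_compl h).fs).hw z).length := by
    rw [hw, hlen]
    omega
  have hle : (ofTri T).Le T := ⟨fun _ _ => rfl, fun _ _ => rfl⟩
  have h1 := fill_hol hle hl hz hE hfill
  rw [hw, rvw_hol hl, inv_eq_one] at h1
  exact h1

end SYS
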