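import Pool.Agent.SYS.SW.Sds
import Pool.Agent.SYS.SW.Dsc
import Pool.Agent.SYS.CO.Dvd
import Pool.Agent.SYS.LA.ArS

/-!
# SYS-SW-Main: both sides of a simple separating essential closed walk have rank at least two
-/

namespace SYS

open Classical SST XP

private theorem smp_ncard {D : Type} {T : Tri D} {W : List D} (hs : T.Simple W) {Y : Set D}
    (hb : ∀ d, d ∈ bdy T Y ↔ d ∈ W) : (bdy T Y).ncard = W.length := by
  have h1 : bdy T Y = (W.toFinset : Set D) := by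
    ext d
    rw [Finset.mem_coe, List.mem_toFinset]
    exact hb d
  rw [h1, Set.ncard_coe_finset, List.toFinset_card_of_nodup (smp_nodup hs)]

private theorem side_rk {D : Type} [Finite D] {T : Tri D} (hT : T.Conn) {W : List D} (hc : T.Closed W) (hs : T.Simple W)
    (hne : W ≠ []) (ha : ∀ d ∈ W, T.a d ∉ W) {Y : Set D} (h : Cut2 T Y) (hb : ∀ d, d ∈ bdy T Y ↔ d ∈ W)
    {G : Type} [Group G] {l : D → G} (hl : Flat T l) (hW : hol l W ≠ 1) : 2 ≤ CO.rk T (CO.ins T Y) := by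
  have _ := Fintype.ofFinite D
  have hx : W.head hne ∈ W := List.head_mem hne
  have hR : (cut T Y h.fs).R.Nonempty := by
    rw [cut_R]
    exact h.ne
  obtain ⟨g, -, h1, h2⟩ := CO.euler hT (cut_le T Y h.fs) (cut_con h) hR (smp_hl hc hs h.fs hb hx)
  have hX : (cut T Y h.fs).X.Nonempty := by
    obtain ⟨d, hd⟩ := h.ne'
    refine ⟨d, Or.inl ?_⟩
    rw [cut_R]
    exact hd
  rw [CO.hcomp_one (cut_hconn h) hX, CO.rev_cut, List.length_singleton] at h2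
  rw [cut_B, cut_R, smp_ncard hs hb, List.length_singleton] at h1
  by_contra hcon
  have hg : g = 0 := by omega
  exact hW (smp_disc hl hc hs hne ha h hb (by omega))

theorem ssc_cut {D : Type} [Finite D] {T : Tri D} (hT : T.Conn) {L : ℝ} (h : T.HasSSC L) :
    ∃ Y : Set D, Cut2 T Y ∧ ((bdy T Y).ncard : ℝ) ≤ L ∧ 2 ≤ CO.rk T (CO.ins T Y) ∧ 2 ≤ CO.rk T (CO.ins T Yᶜ) := by
  obtain ⟨W, hne, hc, hs, h0, hn, hL⟩ := h
  have ha : ∀ d ∈ W, T.a d ∉ W := fun d hd => smp_a hc hs hn hd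
  obtain ⟨Y, hY, hb⟩ := smp_side hT hc hs h0 hne ha
  have : Nonempty D := ⟨W.head hne⟩
  obtain ⟨G, hG, l, hl, hfl⟩ := exists_flat T hT
  have hW : hol l W ≠ 1 := fun h1 => hn ((hfl W hc).1 h1)
  refine ⟨Y, hY, ?_, side_rk hT hc hs hne ha hY hb hl hW, ?_⟩
  · rw [smp_ncard hs hb]
    exact hL
  · refine side_rk hT (rvw_closed hc) (rvw_simple hc hs) ?_ ?_ (cut2_compl hY) (fun d => ?_) hl ?_
    · intro h1
      have h2 : T.a (W.head hne) ∈ rvw T W := by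
        rw [mem_rvw, T.aa]
        exact List.head_mem hne
      rw [h1] at h2
      exact List.not_mem_nil h2
    · intro d hd hd'
      rw [mem_rvw] at hd hd'
      rw [T.aa] at hd'
      exact ha d hd' hd
    · rw [mem_rvw, ← hb]
      show (d ∉ Y ∧ ¬ T.a d ∉ Y) ↔ (T.a d ∈ Y ∧ T.a (T.a d) ∉ Y)
      rw [T.aa, not_not, and_comm]
    · rw [rvw_hol hl]
      intro h1
      exact hW (inv_eq_one.1 h1)

theorem ssc_face {n : ℕ} {T : Tri (Fin (6 * n))} (hT : T.Conn) {L A : ℝ} (hA : ArS T L A) (h : T.HasSSC L) :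
    ∃ Y : Set (Fin (6 * n)), Cut2 T Y ∧ ((bdy T Y).ncard : ℝ) ≤ L ∧ (Y.ncard : ℝ) ≤ A ∧ 2 ≤ CO.rk T (CO.ins T Y) := by
  obtain ⟨Y, hY, hL, h1, h2⟩ := ssc_cut hT h
  rcases hA.ar1 Y hY hL with h3 | h3
  · exact ⟨Y, hY, hL, h3, h1⟩
  · refine ⟨Yᶜ, cut2_compl hY, ?_, h3, h2⟩
    rw [bdy_compl]
    exact hL

end SYS
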