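import Pool.Agent.SYS.SW.Smp
import Pool.Agent.SYS.XP.Cut
import Pool.Agent.SYS.CO.Pla

/-!
# SYS-SW-Hol: the side of a simple closed walk is a region with one hole, whose word is the walk

PROOF. `X = cut T Y h`, `X.B = bdy T Y` (`cut_B`). For `d ∈ X.B`: `X.nx d ∈ X.B` (`nx_B`), so in `W`, and its tail is `T.hd d` (`CO.tl_nx`, `cut_le`): by `smp_next`, `smp_tl`: `X.nx W[i] = W[(i + 1) % l]`. So all boundary darts are in the cycle of `W[0]` (`X.HL [W[0]]`: the definition of `HL` and of `hole`, `mem_hw`; `nx` and `s` have the same cycles on `B`: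
see `hw_cyc`, `mem_cyc`), and `X.hw W[0] = W` (`hw_cyc`: the minimal period of `X.nx` at `W[0]` is `l`, since the `W[i]` are distinct).
-/

namespace SYS

open Classical SST XP Part

variable {D : Type} [Finite D] {T : Tri D} {W : List D}

private theorem hol_nx (hc : T.Closed W) (hs : T.Simple W) {Y : Set D} (h : Fs T Y) (hb : ∀ d, d ∈ bdy T Y ↔ d ∈ W) {i : ℕ}
    (hi : i < W.length) : (cut T Y h).nx W[i] = W[(i + 1) % W.length]'(Nat.mod_lt _ (by omega)) := by
  have hB : ∀ d, d ∈ (cut T Y h).B ↔ d ∈ W := by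
    intro d
    rw [cut_B]
    exact hb d
  have h1 : W[i] ∈ (cut T Y h).B := (hB _).2 (List.getElem_mem _)
  have h2 : (cut T Y h).nx W[i] ∈ (cut T Y h).B := (Part.nx_mem _).mpr h1
  refine smp_tl hs ((hB _).1 h2) (List.getElem_mem _) ?_
  rw [CO.tl_nx (cut_le T Y h) h1, smp_next hc hi]

theorem smp_hw (hc : T.Closed W) (hs : T.Simple W) {Y : Set D} (h : Fs T Y) (hb : ∀ d, d ∈ bdy T Y ↔ d ∈ W) (hne : W ≠ []) :
    (cut T Y h).hw (W.head hne) = W := by
  have hB : ∀ d, d ∈ (cut T Y h).B ↔ d ∈ W := by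
    intro d
    rw [cut_B]
    exact hb d
  have hn := fun (i : ℕ) (hi : i < W.length) => hol_nx hc hs h hb hi
  have hnd := smp_nodup hs
  cases W with
  | nil => exact absurd rfl hne
  | cons x u =>
    show (cut T Y h).hw x = x :: u
    refine Part.hw_eq_of _ (fun d hd => (hB d).2 hd) hnd ?_ ?_
    · rw [List.isChain_iff_getElem]
      intro i hi
      have h1 := hn i (by omega)
      rw [h1]
      congr 1
      exact Nat.mod_eq_of_lt hi
    · have h1 := hn ((x :: u).length - 1) (by simp)
      rw [List.getLast_eq_getElem, h1]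
      have h2 : ((x :: u).length - 1 + 1) % (x :: u).length = 0 := by
        have : (x :: u).length - 1 + 1 = (x :: u).length := by simp
        rw [this, Nat.mod_self]
      have h3 : (x :: u)[((x :: u).length - 1 + 1) % (x :: u).length]'(Nat.mod_lt _ (by simp)) = (x :: u)[0] := by
        congr 1
      rw [h3]
      rfl

theorem smp_hl (hc : T.Closed W) (hs : T.Simple W) {Y : Set D} (h : Fs T Y) (hb : ∀ d, d ∈ bdy T Y ↔ d ∈ W) {x : D} (hx : x ∈ W) :
    (cut T Y h).HL [x] := by
  have hB : ∀ d, d ∈ (cut T Y h).B ↔ d ∈ W := by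
    intro d
    rw [cut_B]
    exact hb d
  have hne : W ≠ [] := List.ne_nil_of_mem hx
  have hw := smp_hw hc hs h hb hne
  have hd0 : W.head hne ∈ (cut T Y h).B := (hB _).2 (List.head_mem hne)
  have key : ∀ d ∈ W, (cut T Y h).s.SameCycle (W.head hne) d := by
    intro d hd
    have h1 : d ∈ (cut T Y h).hw (W.head hne) := by
      rw [hw]
      exact hd
    exact ((Part.mem_hw _ hd0).1 h1).2
  refine ⟨?_, List.pairwise_singleton _ _, ?_⟩
  · intro d hd
    rw [List.mem_singleton] at hd
    subst hd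
    exact (hB _).2 hx
  · intro d hd
    exact ⟨x, List.mem_singleton_self x, (key x hx).symm.trans (key d ((hB d).1 hd))⟩

end SYS
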