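import Pool.Agent.SYS.SW.Smp
import Pool.Agent.SYS.XP.Cut
import Pool.Agent.SYS.LA.Side

/-!
# SYS-SW-Sds: the two sides of a simple null-homologous closed walk

PROOF. `ha`: no dart of `W` is the reverse of a dart of `W`.
* `sds_step`: `d, d' ∈ W`, `T.hd d = T.tl d'`. Let `e i := (T.s ^ i) (T.a d)`; all have the tail `T.hd d` (`Tri.tl_s`); `d'` is in this cycle, let `j ≥ 1` be minimal with `e j = d'` (`d' ≠ T.a d` by `ha`; `Equiv.Perm.SameCycle.exists_pow_eq'`, `Nat.find`). For `1 ≤ i < j`: `e i ≠ d'` and `e i ≠ T.a d` (otherwise the cycle would have reached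
`d'` before: `e (j - i) = d'`), so `e i ∉ W` (`smp_tl`: the only dart of `W` with this tail is `d'`) and `T.a (e i) ∉ W` (its head is the tail of `e i`, i.e. `T.hd d`; `smp_hd`: it would be `d`). So `Sd T W (e i) (T.a (e i))` and `e (i + 1) = T.f (T.a (e i))`. Also `e 1 = T.f d`, `Sd T W d (T.f d)`. Induction: `Sd T W d d'`.
* `sds_one`: all darts of `W` are in one class (`smp_next`, induction on the index).
* `smp_side`: `Y := {e | Sd T W W₀ e}` with `W₀` the first dart. `sds_one` for `rvw T W` (`Sd T (rvw T W) = Sd T W`: the condition is symmetric; `ha` for `rvw`): all `T.a d`, `d ∈ W`, are in one class. `NullHom`: `k`, `T.chain W d = 1` for `d ∈ W` (`smp_chain`), so `k d = k (T.a d) + 1`: different classes (`sd_k`). Every class meets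
`W` or its reverse (`sd_meet`): exactly two classes. `Fs`, `DC` for a class (EqvGen induction), the complement is the class of `T.a W₀`. `bdy`: `d ∈ W`: `T.a d` is in the other class; conversely a boundary dart crosses an edge of `W`, and `T.a d ∈ W` would put `T.a d` into `Y`.
-/

namespace SYS

open Classical SST XP

variable {D : Type} [Finite D] {T : Tri D} {W : List D}

omit [Finite D] in
private theorem sn_f (T : Tri D) (W : List D) (d : D) : Sd T W d (T.f d) := Relation.EqvGen.rel _ _ (Or.inl rfl)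

omit [Finite D] in
private theorem sn_trans {d e k : D} (h : Sd T W d e) (h' : Sd T W e k) : Sd T W d k := Relation.EqvGen.trans _ _ _ h h'

omit [Finite D] in
private theorem sn_symm {d e : D} (h : Sd T W d e) : Sd T W e d := Relation.EqvGen.symm _ _ h

omit [Finite D] in
private theorem sn_a {d : D} (h1 : d ∉ W) (h2 : T.a d ∉ W) : Sd T W d (T.a d) := Relation.EqvGen.rel _ _ (Or.inr ⟨rfl, h1, h2⟩)

private theorem sds_step (hc : T.Closed W) (hs : T.Simple W) (ha : ∀ d ∈ W, T.a d ∉ W) {d d' : D} (hd : d ∈ W) (hd' : d' ∈ W)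
    (h : T.hd d = T.tl d') : Sd T W d d' := by
  have h1 : T.s.SameCycle (T.a d) d' := (T.tl_eq_iff _ _).1 h
  have hex : ∃ m : ℕ, (T.s ^ (m + 1)) (T.a d) = d' := by
    obtain ⟨m, -, hm⟩ := h1.exists_pow_eq'
    cases m with
    | zero =>
      exfalso
      rw [pow_zero, Equiv.Perm.one_apply] at hm
      rw [← hm] at hd'
      exact ha d hd hd'
    | succ m => exact ⟨m, hm⟩
  have hfs := Nat.find_spec hex
  have hfm := fun k => Nat.find_min (m := k) hex
  generalize Nat.find hex = j at hfs hfm
  have htl : ∀ i : ℕ, T.tl ((T.s ^ i) (T.a d)) = T.hd d := by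
    intro i
    induction i with
    | zero => rfl
    | succ i ih => rw [pow_succ', Equiv.Perm.mul_apply, T.tl_s, ih]
  have key : ∀ i, i ≤ j → Sd T W d ((T.s ^ (i + 1)) (T.a d)) := by
    intro i
    induction i with
    | zero =>
      intro _
      rw [zero_add, pow_one]
      show Sd T W d (T.f (T.a (T.a d)))
      rw [T.aa]
      exact sn_f T W d
    | succ i ih =>
      intro hi
      have h2 := ih (by omega)
      have h3 : (T.s ^ (i + 1)) (T.a d) ∉ W := by
        intro h4
        apply hfm i (by omega)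
        exact smp_tl hs h4 hd' (by rw [htl, h])
      have h5 : T.a ((T.s ^ (i + 1)) (T.a d)) ∉ W := by
        intro h4
        have h6 : T.a ((T.s ^ (i + 1)) (T.a d)) = d := smp_hd hc hs h4 hd (by rw [T.hd_a, htl])
        have h7 : (T.s ^ (i + 1)) (T.a d) = T.a d := by
          have h9 := congrArg T.a h6
          rwa [T.aa] at h9
        apply hfm (j - i - 1) (by omega)
        have h8 : j + 1 = (j - i - 1 + 1) + (i + 1) := by omega
        rw [h8, pow_add, Equiv.Perm.mul_apply, h7] at hfs
        exact hfs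
      refine sn_trans h2 (sn_trans (sn_a h3 h5) ?_)
      rw [pow_succ' T.s (i + 1), Equiv.Perm.mul_apply]
      exact sn_f T W _
  have h2 := key j le_rfl
  rwa [hfs] at h2

theorem sds_one (hc : T.Closed W) (hs : T.Simple W) (ha : ∀ d ∈ W, T.a d ∉ W) {d e : D} (hd : d ∈ W) (he : e ∈ W) :
    Sd T W d e := by
  have hpos : 0 < W.length := List.length_pos_of_mem hd
  have key : ∀ (i : ℕ) (hi : i < W.length), Sd T W W[0] W[i] := by
    intro i
    induction i with
    | zero => exact fun _ => Relation.EqvGen.refl _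
    | succ i ih =>
      intro hi
      refine sn_trans (ih (by omega)) (sds_step hc hs ha (List.getElem_mem _) (List.getElem_mem _) ?_)
      rw [smp_next hc (by omega)]
      congr 2
      exact Nat.mod_eq_of_lt hi
  obtain ⟨i, hi, rfl⟩ := List.getElem_of_mem hd
  obtain ⟨j, hj, rfl⟩ := List.getElem_of_mem he
  exact sn_trans (sn_symm (key i hi)) (key j hj)

omit [Finite D] in
private theorem sds_dc (w : D) : Fs T {e | Sd T W w e} ∧ DC T {e | Sd T W w e} := by
  have hf : Fs T {e | Sd T W w e} := fun d => ⟨fun h => sn_trans h (sn_symm (sn_f T W d)), fun h => sn_trans h (sn_f T W d)⟩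
  refine ⟨hf, ?_⟩
  intro Z hZ hne h1 h2
  have key : ∀ x y, Sd T W x y → (x ∈ Z ↔ y ∈ Z) := by
    intro x y h
    induction h with
    | rel x y hh =>
      rcases hh with rfl | ⟨rfl, h3, h4⟩
      · refine ⟨h1 x, fun h => ?_⟩
        have h5 := h1 _ (h1 _ h)
        rwa [T.fff] at h5
      · refine ⟨fun h => h2 x h (sn_trans (hZ h) (sn_a h3 h4)), fun h => ?_⟩
        have h5 := h2 _ h (by
          rw [T.aa]
          exact sn_trans (hZ h) (sn_symm (sn_a h3 h4)))
        rwa [T.aa] at h5
    | refl x => exact Iff.rfl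
    | symm x y _ ih => exact ih.symm
    | trans x y z _ _ ih1 ih2 => exact ih1.trans ih2
  obtain ⟨z, hz⟩ := hne
  refine Set.Subset.antisymm hZ fun e he => ?_
  exact (key z e (sn_trans (sn_symm (hZ hz)) he)).1 hz

theorem smp_side (hT : T.Conn) (hc : T.Closed W) (hs : T.Simple W) (h0 : T.NullHom W) (hne : W ≠ []) (ha : ∀ d ∈ W, T.a d ∉ W) :
    ∃ Y : Set D, Cut2 T Y ∧ ∀ d, d ∈ bdy T Y ↔ d ∈ W := by
  obtain ⟨w, hw⟩ := List.exists_mem_of_ne_nil W hne
  have hL : ∀ d ∈ W, Sd T W w d := fun d hd => sds_one hc hs ha hw hd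
  have hrv : ∀ x y, Sd T (rvw T W) x y → Sd T W x y := by
    intro x y h
    induction h with
    | rel x y hh =>
      apply Relation.EqvGen.rel
      rcases hh with h | ⟨h1, h2, h3⟩
      · exact Or.inl h
      · refine Or.inr ⟨h1, fun h4 => h3 ?_, fun h4 => h2 ?_⟩
        · rw [mem_rvw, T.aa]
          exact h4
        · rw [mem_rvw]
          exact h4
    | refl x => exact Relation.EqvGen.refl _
    | symm x y _ ih => exact sn_symm ih
    | trans x y z _ _ ih1 ih2 => exact sn_trans ih1 ih2
  have hR : ∀ d ∈ W, Sd T W (T.a w) (T.a d) := by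
    intro d hd
    apply hrv
    refine sds_one (rvw_closed hc) (rvw_simple hc hs) ?_ ?_ ?_
    · intro e he h
      rw [mem_rvw] at he h
      exact ha _ he h
    · rw [mem_rvw, T.aa]
      exact hw
    · rw [mem_rvw, T.aa]
      exact hd
  obtain ⟨k, hk1, hk2⟩ := h0
  have hdis : ∀ e, Sd T W w e → ¬ Sd T W (T.a w) e := by
    intro e h1 h2
    have h3 := sd_k hk1 hk2 h1
    have h4 := sd_k hk1 hk2 h2
    have h5 := hk2 w
    rw [smp_chain hs, if_pos hw, if_neg (ha w hw)] at h5
    omega
  have hall : ∀ e, Sd T W w e ∨ Sd T W (T.a w) e := by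
    intro e
    obtain ⟨e', h1, h2⟩ := sd_meet hT hne e
    rcases h1 with h1 | h1
    · exact Or.inl (sn_trans (hL e' h1) (sn_symm h2))
    · right
      have h3 := hR _ h1
      rw [T.aa] at h3
      exact sn_trans h3 (sn_symm h2)
  have hcompl : {e | Sd T W w e}ᶜ = {e | Sd T W (T.a w) e} := by
    ext e
    constructor
    · intro h
      exact (hall e).resolve_left h
    · intro h h'
      exact hdis e h' h
  have h1 := sds_dc (T := T) (W := W) w
  have h2 := sds_dc (T := T) (W := W) (T.a w)
  refine ⟨{e | Sd T W w e}, ⟨h1.1, h1.2, ?_, ⟨w, Relation.EqvGen.refl _⟩, ?_⟩, ?_⟩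
  · rw [hcompl]
    exact h2.2
  · rw [hcompl]
    exact ⟨T.a w, Relation.EqvGen.refl _⟩
  · intro d
    constructor
    · rintro ⟨h3, h4⟩
      by_contra hd
      by_cases hd' : T.a d ∈ W
      · have h5 := hR _ hd'
        rw [T.aa] at h5
        exact hdis d h3 h5
      · exact h4 (sn_trans h3 (sn_a hd hd'))
    · intro hd
      exact ⟨hL d hd, fun h => hdis _ h (hR d hd)⟩

end SYS
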