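import Pool.Agent.SYS.Defs
import Pool.Agent.SYS.Lib.Flat

/-!
# SYS-SW-Smp: simple closed walks

PROOF. `smp_next`: from `T.IsWalk v W v` (as `mn_walk` in `SYS/LP/Main.lean`: `hd W[i] = tl W[i + 1]`, `tl W[0] = v = hd W[last]`). `smp_tl`: `List.inj_on_of_nodup_map`. `smp_hd`: if `d = W[i]`, `e = W[j]` have the same head then `W[(i+1) % l]` and `W[(j+1) % l]` have the same tail, so they are equal, `i + 1 ≡ j + 1`, `i = j`
(`List.Nodup.getElem_inj_iff`). `smp_a`: if `d = W[i] ∈ W` and `T.a d ∈ W`: `T.tl (T.a d) = T.hd d = T.tl W[(i+1) % l]`, so `T.a d = W[(i+1) % l]`, and `T.hd (T.a d) = T.tl d` (`T.aa`), so `W[(i+2) % l] = d = W[i]`, `l ∣ 2`; `l = 1`: `T.a d = d`, against `T.ane`; `l = 2`: `W = [e, T.a e]`: null-homotopic by one `Step.spur`.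
`smp_chain`: `List.sum` of `ind`: `W.count d - W.count (T.a d)`, `List.Nodup.count`. `rvw`: reversed walk.
-/

namespace SYS

open Classical SST

variable {D : Type} {T : Tri D} {W : List D}

/-- Reversed walk. -/
def rvw (T : Tri D) (W : List D) : List D := (W.map T.a).reverse

theorem mem_rvw {d : D} : d ∈ rvw T W ↔ T.a d ∈ W := by
  unfold rvw
  rw [List.mem_reverse, List.mem_map]
  constructor
  · rintro ⟨e, he, rfl⟩
    rwa [T.aa]
  · intro h
    exact ⟨T.a d, h, T.aa d⟩

private theorem sm_walk (T : Tri D) (W : List D) : ∀ u v : T.V, T.IsWalk u W v →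
    (∀ (i : ℕ) (h : i + 1 < W.length), T.hd W[i] = T.tl W[i + 1]) ∧
      ∀ h : 0 < W.length, T.tl W[0] = u ∧ T.hd (W[W.length - 1]'(by omega)) = v := by
  induction W with
  | nil =>
    intro u v _
    exact ⟨fun i h => absurd h (by simp), fun h => absurd h (by simp)⟩
  | cons d c ih =>
    intro u v h
    obtain ⟨h1, h2⟩ := ih _ _ h.2
    refine ⟨fun i hi => ?_, fun _ => ⟨h.1, ?_⟩⟩
    · cases i with
      | zero =>
        have h3 : 0 < c.length := by
          simp only [List.length_cons] at hi
          omega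
        exact (h2 h3).1.symm
      | succ i =>
        have h3 : i + 1 < c.length := by
          simp only [List.length_cons] at hi
          omega
        exact h1 i h3
    · cases c with
      | nil =>
        exact h.2
      | cons e c =>
        exact (h2 (by simp)).2

theorem smp_next (hc : T.Closed W) {i : ℕ} (hi : i < W.length) :
    T.hd W[i] = T.tl (W[(i + 1) % W.length]'(Nat.mod_lt _ (by omega))) := by
  obtain ⟨v, hv⟩ := hc
  obtain ⟨h1, h2⟩ := sm_walk T W v v hv
  obtain ⟨h3, h4⟩ := h2 (by omega)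
  rcases Nat.lt_or_ge (i + 1) W.length with h | h
  · rw [h1 i h]
    congr 2
    exact (Nat.mod_eq_of_lt h).symm
  · have h5 : i = W.length - 1 := by omega
    have h6 : (i + 1) % W.length = 0 := by
      have : i + 1 = W.length := by omega
      rw [this, Nat.mod_self]
    have e1 : W[(i + 1) % W.length]'(Nat.mod_lt _ (by omega)) = W[0] := by
      congr 1
    have e2 : W[i] = W[W.length - 1]'(by omega) := by
      congr 1
    rw [e1, e2, h3, h4]

theorem smp_nodup (hs : T.Simple W) : W.Nodup := List.Nodup.of_map _ hs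

theorem smp_tl (hs : T.Simple W) {d e : D} (hd : d ∈ W) (he : e ∈ W) (h : T.tl d = T.tl e) : d = e :=
  List.inj_on_of_nodup_map hs hd he h

theorem smp_hd (hc : T.Closed W) (hs : T.Simple W) {d e : D} (hd : d ∈ W) (he : e ∈ W) (h : T.hd d = T.hd e) : d = e := by
  obtain ⟨i, hi, rfl⟩ := List.getElem_of_mem hd
  obtain ⟨j, hj, rfl⟩ := List.getElem_of_mem he
  rw [smp_next hc hi, smp_next hc hj] at h
  have h1 := smp_tl hs (List.getElem_mem _) (List.getElem_mem _) h
  rw [(smp_nodup hs).getElem_inj_iff] at h1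
  have h2 : i = j := by
    have hpos : 0 < W.length := by omega
    have h3 : (i + 1) ≡ (j + 1) [MOD W.length] := h1
    have h4 := Nat.ModEq.add_right_cancel' 1 h3
    have h5 : i % W.length = j % W.length := h4
    rwa [Nat.mod_eq_of_lt hi, Nat.mod_eq_of_lt hj] at h5
  subst h2
  rfl

theorem smp_a (hc : T.Closed W) (hs : T.Simple W) (hn : ¬ T.NullHtp W) {d : D} (hd : d ∈ W) : T.a d ∉ W := by
  intro ha
  obtain ⟨i, hi, rfl⟩ := List.getElem_of_mem hd
  have hpos : 0 < W.length := by omega
  have h1 : T.a W[i] = W[(i + 1) % W.length]'(Nat.mod_lt _ hpos) := by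
    apply smp_tl hs ha (List.getElem_mem _)
    rw [← smp_next hc hi]
    rfl
  have h2 : T.hd (W[(i + 1) % W.length]'(Nat.mod_lt _ hpos)) = T.tl W[i] := by
    rw [← h1]
    show T.tl (T.a (T.a W[i])) = T.tl W[i]
    rw [T.aa]
  rw [smp_next hc (Nat.mod_lt _ hpos)] at h2
  have h3 := smp_tl hs (List.getElem_mem _) (List.getElem_mem _) h2
  rw [(smp_nodup hs).getElem_inj_iff] at h3
  have h4 : ((i + 1) % W.length + 1) % W.length = (i + 2) % W.length := by
    rw [Nat.mod_add_mod]
  rw [h4] at h3
  have h5 : (i + 2) ≡ (i + 0) [MOD W.length] := by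
    show (i + 2) % W.length = (i + 0) % W.length
    rw [h3, add_zero, Nat.mod_eq_of_lt hi]
  have h6 : 2 ≡ 0 [MOD W.length] := Nat.ModEq.add_left_cancel' i h5
  have h7 : W.length ∣ 2 := (Nat.modEq_zero_iff_dvd).1 h6
  have h8 : W.length ≤ 2 := Nat.le_of_dvd (by norm_num) h7
  match hW : W, h8, hpos with
  | [e], _, _ =>
    subst hW
    simp only [List.mem_singleton] at ha
    have : i = 0 := by
      simp only [List.length_singleton] at hi
      omega
    subst this
    exact T.ane _ ha
  | [e, e'], _, _ =>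
    subst hW
    have he : T.a e = e' := by
      simp only [List.length_cons, List.length_nil] at hi h1
      have hi' : i = 0 ∨ i = 1 := by omega
      rcases hi' with rfl | rfl
      · simpa using h1
      · have h9 : T.a e' = e := by simpa using h1
        rw [← h9, T.aa]
    apply hn
    rw [← he] at hc ⊢
    obtain ⟨v, hv⟩ := hc
    refine Relation.EqvGen.symm _ _ (Relation.EqvGen.rel _ _ ⟨⟨v, ?_⟩, ⟨v, hv⟩, ?_⟩)
    · exact rfl
    · exact Tri.Step.spur [] [] e

private theorem sm_chain (T : Tri D) (W : List D) (d : D) : T.chain W d = (W.count d : ℤ) - W.count (T.a d) := by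
  unfold Tri.chain
  induction W with
  | nil => simp
  | cons e c ih =>
    rw [List.map_cons, List.sum_cons, ih, List.count_cons, List.count_cons]
    unfold Tri.ind
    by_cases h1 : e = d <;> by_cases h2 : e = T.a d <;> simp [h1, h2] <;> ring

theorem smp_chain (hs : T.Simple W) (d : D) : T.chain W d = (if d ∈ W then 1 else 0) - (if T.a d ∈ W then 1 else 0) := by
  rw [sm_chain]
  have h := smp_nodup hs
  rw [List.Nodup.count h, List.Nodup.count h]
  push_cast
  rfl

theorem rvw_closed (hc : T.Closed W) : T.Closed (rvw T W) := by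
  obtain ⟨v, hv⟩ := hc
  exact ⟨v, T.walk_rev hv⟩

theorem rvw_simple (hc : T.Closed W) (hs : T.Simple W) : T.Simple (rvw T W) := by
  unfold Tri.Simple rvw
  rw [List.map_reverse, List.nodup_reverse, List.map_map]
  refine List.Nodup.map_on ?_ (smp_nodup hs)
  intro d hd e he h
  exact smp_hd hc hs hd he h

theorem rvw_hol {G : Type} [Group G] {l : D → G} (hl : Flat T l) : hol l (rvw T W) = (hol l W)⁻¹ := hl.hol_rev W

end SYS
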